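import Mathlib
import Pool.Agent.H547R3.Sub.GMap

set_option autoImplicit false

namespace Pool.Agent.Results.MP_f2ed2a_nt.SimpleCycles

/-- The generalized Collatz map `T(x) = (m_i x - r_i) / d`, where `i` is the residue of `x` modulo
`d`. -/
def T (d : ℕ) (m r : ℤ → ℤ) (x : ℤ) : ℤ := (m (x % d) * x - r (x % d)) / d

/-- The factor `w a, w (a+1), ..., w (b-1)` of the sequence `w` has period `π`. -/
def HasPeriod (w : ℕ → ℤ) (π a b : ℕ) : Prop := ∀ j, a ≤ j → j + π < b → w (j + π) = w j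

/-- The word `w 0, w 1, ..., w (n-1)` is a concatenation of `s` words (cut at `0 = t 0 ≤ t 1 ≤ ... ≤
t s = n`), each of which has some period `π` with `1 ≤ π ≤ ℓ`. -/
def Splits (w : ℕ → ℤ) (ℓ s n : ℕ) : Prop :=
  ∃ t : ℕ → ℕ, t 0 = 0 ∧ t s = n ∧ (∀ i < s, t i ≤ t (i + 1)) ∧
    ∀ i < s, ∃ π, 1 ≤ π ∧ π ≤ ℓ ∧ HasPeriod w π (t i) (t (i + 1))

open Pool.Agent.H547R3.Sub in
/-- Let `d ≠ q` be primes, `m_i = q ^ e_i` and `r_i ≡ i m_i (mod d)` for `0 ≤ i < d`. For all real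
`C` and `t < 1`, the map `T` has only finitely many periodic points `x` such that, `P` being the
least period of `x`, the word of the residues modulo `d` of `x, T x, ..., T^(P-1) x` is a
concatenation of at most `C log P` words each having a period at most `P ^ t`. -/
theorem result (d q : ℕ) (hd : d.Prime) (hq : q.Prime) (hdq : d ≠ q) (e : ℤ → ℕ) (m r : ℤ → ℤ)
    (hm : ∀ i : ℤ, 0 ≤ i → i < d → m i = (q : ℤ) ^ e i)
    (hr : ∀ i : ℤ, 0 ≤ i → i < d → (d : ℤ) ∣ m i * i - r i) (C t : ℝ) (ht : t < 1) :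
    {x : ℤ | ∃ P : ℕ, 1 ≤ P ∧ (T d m r)^[P] x = x ∧
      (∀ j, 1 ≤ j → j < P → (T d m r)^[j] x ≠ x) ∧
      ∃ s ℓ : ℕ, (s : ℝ) ≤ C * Real.log P ∧ (ℓ : ℝ) ≤ (P : ℝ) ^ t ∧
        Splits (fun j => (T d m r)^[j] x % (d : ℤ)) ℓ s P}.Finite := by
  have hd0 : (0 : ℤ) < d := by exact_mod_cast hd.pos
  have hTG : T d m r = GT d q e r := by
    funext x
    unfold T GT
    rw [hm _ (Int.emod_nonneg x hd0.ne') (Int.emod_lt_of_pos x hd0)]
  have hadm : ∀ i : ℤ, 0 ≤ i → i < d → (d : ℤ) ∣ (q : ℤ) ^ e i * i - r i := by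
    intro i h0 h1
    have := hr i h0 h1
    rwa [hm i h0 h1] at this
  rw [hTG]
  -- normalise the constants
  set u : ℝ := max t (1 / 2) with hu
  have hu1 : u < 1 := max_lt ht (by norm_num)
  have hu0 : 0 < u := lt_of_lt_of_le (by norm_num) (le_max_right _ _)
  set C1 : ℝ := max C 1 with hC1
  have hC10 : 0 < C1 := lt_of_lt_of_le one_pos (le_max_right _ _)
  have h1u : 0 < 1 - u := by linarith
  set C2 : ℝ := 4 * C1 / (1 - u) with hC2
  have hC20 : 0 < C2 := by positivity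
  obtain ⟨A, hA, hc⟩ := GT_cycle hd hq hdq e r hadm C2 hC20
  set A' : ℝ := A * (1 + (1 + 2 / u) ^ 2) with hA'
  have hA'0 : 0 < A' := by positivity
  have key : ∀ (x : ℤ) (P s ℓ : ℕ), 1 ≤ P → (GT d q e r)^[P] x = x →
      (∀ j, 1 ≤ j → j < P → (GT d q e r)^[j] x ≠ x) → (s : ℝ) ≤ C * Real.log P →
      (ℓ : ℝ) ≤ (P : ℝ) ^ t → Splits (fun j => (GT d q e r)^[j] x % (d : ℤ)) ℓ s P →
      (P : ℝ) ≤ A' ^ (4 / (3 * (1 - u))) := by
    intro x P s ℓ hP hper hprim hs hℓ hS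
    obtain ⟨T', g0, gs, gmono, gper⟩ := hS
    have h1 := hc x P s ℓ hP hper hprim ⟨T', g0, gs, gmono, fun i hi => by
      obtain ⟨π, k1, k2, k3⟩ := gper i hi
      exact ⟨π, k1, k2, fun j hj1 hj2 => k3 j hj1 hj2⟩⟩
    have hPR : (1 : ℝ) ≤ P := by exact_mod_cast hP
    have hP0 : (0 : ℝ) < P := by linarith
    have hlogP : 0 ≤ Real.log P := Real.log_nonneg hPR
    have hℓu : (ℓ : ℝ) ≤ (P : ℝ) ^ u :=
      hℓ.trans (Real.rpow_le_rpow_of_exponent_le hPR (le_max_left _ _))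
    have hlogu : 1 + Real.log P ≤ (1 + 2 / u) * (P : ℝ) ^ (u / 2) := by
      have h2 := Real.log_le_rpow_div hP0.le (show 0 < u / 2 by positivity)
      have h3 : (1 : ℝ) ≤ (P : ℝ) ^ (u / 2) := Real.one_le_rpow hPR (by positivity)
      have h4 : (P : ℝ) ^ (u / 2) / (u / 2) = 2 / u * (P : ℝ) ^ (u / 2) := by field_simp
      rw [h4] at h2
      nlinarith
    have hsq : (1 + Real.log P) ^ 2 ≤ (1 + 2 / u) ^ 2 * (P : ℝ) ^ u := by
      have h2 : (1 + Real.log P) ^ 2 ≤ ((1 + 2 / u) * (P : ℝ) ^ (u / 2)) ^ 2 :=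
        pow_le_pow_left₀ (by linarith) hlogu 2
      have h3 : ((P : ℝ) ^ (u / 2)) ^ 2 = (P : ℝ) ^ u := by
        rw [← Real.rpow_natCast, ← Real.rpow_mul hP0.le]
        congr 1
        push_cast
        ring
      rw [mul_pow, h3] at h2
      exact h2
    have hexp : Real.exp (s / C2) ≤ (P : ℝ) ^ ((1 - u) / 4) := by
      rw [Real.rpow_def_of_pos hP0]
      apply Real.exp_le_exp.2
      rw [div_le_iff₀ hC20]
      have h2 : (s : ℝ) ≤ C1 * Real.log P :=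
        hs.trans (mul_le_mul_of_nonneg_right (le_max_left _ _) hlogP)
      have h3 : Real.log P * ((1 - u) / 4) * C2 = C1 * Real.log P := by
        rw [hC2]
        field_simp
      rw [h3]
      exact h2
    have h2 : (P : ℝ) ≤ A' * (P : ℝ) ^ (u + (1 - u) / 4) := by
      have hPu : 0 < (P : ℝ) ^ u := Real.rpow_pos_of_pos hP0 _
      have h3 : A * (ℓ + (1 + Real.log P) ^ 2) ≤ A' * (P : ℝ) ^ u := by
        rw [hA', mul_assoc]
        apply mul_le_mul_of_nonneg_left _ hA.le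
        linarith
      have h4 : A * (ℓ + (1 + Real.log P) ^ 2) * Real.exp (s / C2) ≤
          A' * (P : ℝ) ^ u * (P : ℝ) ^ ((1 - u) / 4) :=
        mul_le_mul h3 hexp (Real.exp_pos _).le (by positivity)
      rw [Real.rpow_add hP0, ← mul_assoc]
      exact h1.trans h4
    have h3 : (P : ℝ) ^ (3 * (1 - u) / 4) ≤ A' := by
      have h4 : (P : ℝ) = (P : ℝ) ^ (u + (1 - u) / 4) * (P : ℝ) ^ (3 * (1 - u) / 4) := by
        rw [← Real.rpow_add hP0]
        have : u + (1 - u) / 4 + 3 * (1 - u) / 4 = 1 := by ring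
        rw [this, Real.rpow_one]
      have hpos : 0 < (P : ℝ) ^ (u + (1 - u) / 4) := Real.rpow_pos_of_pos hP0 _
      have h5 : (P : ℝ) ^ (u + (1 - u) / 4) * (P : ℝ) ^ (3 * (1 - u) / 4) ≤
          (P : ℝ) ^ (u + (1 - u) / 4) * A' := by
        rw [← h4, mul_comm]
        exact h2
      exact le_of_mul_le_mul_left h5 hpos
    have h6 : ((P : ℝ) ^ (3 * (1 - u) / 4)) ^ (4 / (3 * (1 - u))) = P := by
      rw [← Real.rpow_mul hP0.le]
      have : 3 * (1 - u) / 4 * (4 / (3 * (1 - u))) = 1 := by field_simp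
      rw [this, Real.rpow_one]
    rw [← h6]
    exact Real.rpow_le_rpow (Real.rpow_nonneg hP0.le _) h3 (by positivity)
  set P0 : ℕ := ⌊A' ^ (4 / (3 * (1 - u)))⌋₊ with hP0
  have hFin : (⋃ P ∈ Finset.Icc 1 P0, {x : ℤ | (GT d q e r)^[P] x = x}).Finite :=
    Set.Finite.biUnion (Finset.finite_toSet _)
      (fun P hP => GT_finite hd hq hdq e r hadm P (Finset.mem_Icc.1 hP).1)
  refine hFin.subset ?_
  rintro x ⟨P, hP, hper, hprim, s, ℓ, hs, hℓ, hS⟩
  refine Set.mem_iUnion₂.2 ⟨P, Finset.mem_Icc.2 ⟨hP, ?_⟩, hper⟩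
  exact Nat.le_floor (key x P s ℓ hP hper hprim hs hℓ hS)

end Pool.Agent.Results.MP_f2ed2a_nt.SimpleCycles
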