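import Pool.Agent.H828R3.GP.Main

set_option autoImplicit false

/-! Contracting generalised Collatz maps of relatively prime type: uniform power savings for the orbits
that stay outside `[-y, y]`, and for the basins of the cycles without small elements. -/

namespace Pool.Agent.Results.MP_f2ed2a_nt.UniformPowerSaving

open Finset

/-- the map `T(x) = (m_i x - r_i) / d` for `x ≡ i mod d`, `0 ≤ i < d` -/
def T (d : ℕ) (m r : ℕ → ℤ) (x : ℤ) : ℤ := (m (x % d).toNat * x - r (x % d).toNat) / d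

/-- number of the integers `x` with `|x| ≤ X` and the property `P` -/
noncomputable def count (P : ℤ → Prop) (X : ℝ) : ℝ := ({x : ℤ | |(x : ℝ)| ≤ X ∧ P x}.ncard : ℝ)

/-- `(s, η)` is an admissible pair of exponents: `0 ≤ s`, `0 ≤ η < 1`, `∑ (|m_i|/d)^s ≤ d^η` -/
def Admissible (d : ℕ) (m : ℕ → ℤ) (s η : ℝ) : Prop :=
  0 ≤ s ∧ 0 ≤ η ∧ η < 1 ∧ ∑ j ∈ range d, (|(m j : ℝ)| / d) ^ s ≤ (d : ℝ) ^ η

/-- Let `T` be a generalised Collatz map of relatively prime type with `2 ≤ |m_0 ... m_{d-1}| < d^d`.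
There are admissible exponents `(s, η)`, and for all such and every `0 < c < 1 - η` there is `C` such that
for every `y ≥ 1`:
(1) for every `X ≥ 1` at most `C X / y^c` integers `|x| ≤ X` have an orbit that stays outside `[-y, y]`;
(2) if `F` is met by the orbits of all integers of `[-y, y]`, then for every `X ≥ 1` at most `C X / y^c`
integers `|x| ≤ X` have an orbit disjoint from `F`;
(3) for every `X ≥ 1` at most `C X / y^c` integers `|x| ≤ X` reach a periodic point `p` that is reached by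
no integer of `[-y, y]`. -/
theorem result (d : ℕ) (m r : ℕ → ℤ) (hd : 2 ≤ d) (hcop : ∀ i < d, IsCoprime (m i) (d : ℤ))
    (hadm : ∀ i < d, (d : ℤ) ∣ m i * i - r i) (hc : ∏ i ∈ range d, (m i).natAbs < d ^ d)
    (h2 : 2 ≤ ∏ i ∈ range d, (m i).natAbs) :
    (∃ s η : ℝ, Admissible d m s η) ∧
    ∀ s η : ℝ, Admissible d m s η → ∀ c : ℝ, 0 < c → c < 1 - η →
      ∃ C : ℝ, 0 < C ∧ ∀ y : ℝ, 1 ≤ y → ∀ X : ℝ, 1 ≤ X →
        count (fun x => ∀ k : ℕ, y < |(((T d m r)^[k] x : ℤ) : ℝ)|) X ≤ C * X / y ^ c ∧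
        (∀ F : Set ℤ, (∀ x : ℤ, |(x : ℝ)| ≤ y → ∃ k : ℕ, (T d m r)^[k] x ∈ F) →
          count (fun x => ∀ k : ℕ, (T d m r)^[k] x ∉ F) X ≤ C * X / y ^ c) ∧
        count (fun x => ∃ p : ℤ, (∃ n : ℕ, 1 ≤ n ∧ (T d m r)^[n] p = p) ∧
          (∃ k : ℕ, (T d m r)^[k] x = p) ∧
          ∀ z : ℤ, (∃ j : ℕ, (T d m r)^[j] z = p) → y < |(z : ℝ)|) X ≤ C * X / y ^ c := by
  have h : Pool.Agent.H319R3.GC.Adm d m r := ⟨hd, hcop, hadm, hc, h2⟩
  have hd0 : (0 : ℝ) < d := by exact_mod_cast (by omega : 0 < d)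
  constructor
  · obtain ⟨s, η, h0, h1, h3, h4⟩ := (Pool.Agent.H828R3.GP.gc h).exists_exp (by
      change ∑ i ∈ range d, Real.log (|((m (i : ℤ).toNat : ℤ) : ℝ)| / (d : ℝ)) < 0
      have e : ∑ i ∈ range d, Real.log (|((m (i : ℤ).toNat : ℤ) : ℝ)| / (d : ℝ)) =
          Real.log ((∏ i ∈ range d, (m i).natAbs : ℕ) : ℝ) - d * Real.log d := by
        have e1 : ∀ i ∈ range d, Real.log (|((m (i : ℤ).toNat : ℤ) : ℝ)| / (d : ℝ)) =
            Real.log (((m i).natAbs : ℕ) : ℝ) - Real.log d := by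
          intro i hi
          have h5 := Pool.Agent.H828R3.GP.m_abs h (mem_range.1 hi)
          rw [Int.toNat_natCast, Real.log_div (by linarith) hd0.ne', Nat.cast_natAbs, Int.cast_abs]
        rw [sum_congr rfl e1, sum_sub_distrib, sum_const, card_range, nsmul_eq_mul, Nat.cast_prod,
          Real.log_prod]
        intro i hi
        have h5 := Pool.Agent.H828R3.GP.m_abs h (mem_range.1 hi)
        rw [Nat.cast_natAbs, Int.cast_abs]
        linarith
      rw [e]
      have h6 : ((∏ i ∈ range d, (m i).natAbs : ℕ) : ℝ) < (d : ℝ) ^ d := by exact_mod_cast hc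
      have h7 : (0 : ℝ) < ((∏ i ∈ range d, (m i).natAbs : ℕ) : ℝ) := by
        exact_mod_cast (by omega : 0 < ∏ i ∈ range d, (m i).natAbs)
      have h8 := Real.log_lt_log h7 h6
      rw [Real.log_pow] at h8
      linarith)
    refine ⟨s, η, h0, by linarith, h3, ?_⟩
    have h5 : ∑ i ∈ range d, (|((m (i : ℤ).toNat : ℤ) : ℝ)| / (d : ℝ)) ^ s < (d : ℝ) ^ η := h4
    refine le_trans (le_of_eq ?_) h5.le
    apply sum_congr rfl
    intro i _
    rw [Int.toNat_natCast]
  · rintro s η ⟨hs, hη0, hη1, hsum⟩ c hc0 hcη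
    obtain ⟨C, hC, hmain⟩ := Pool.Agent.H828R3.GP.power_saving h hs hη0 hη1 hsum hc0 hcη
    refine ⟨C, hC, fun y hy X hX => ?_⟩
    have key : ∀ P : ℤ → Prop, (∀ x : ℤ, P x → ∀ k : ℕ, y < |(((T d m r)^[k] x : ℤ) : ℝ)|) →
        count P X ≤ C * X / y ^ c := by
      intro P hP
      refine le_trans ?_ (hmain X y hX hy)
      have hfin : {x : ℤ | |(x : ℝ)| ≤ X ∧
          ∀ k : ℕ, y < |(((Pool.Agent.H319R3.GC.Tm d m r)^[k] x : ℤ) : ℝ)|}.Finite := by
        apply (Set.finite_Icc (-⌈X⌉) ⌈X⌉).subset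
        rintro x ⟨hx, -⟩
        have h1 := abs_le.1 hx
        have h2 := Int.le_ceil X
        rw [Set.mem_Icc]
        constructor
        · have : (-(⌈X⌉ : ℤ) : ℝ) ≤ x := by linarith
          exact_mod_cast this
        · have : (x : ℝ) ≤ (⌈X⌉ : ℤ) := by linarith
          exact_mod_cast this
      have hsub : {x : ℤ | |(x : ℝ)| ≤ X ∧ P x} ⊆ {x : ℤ | |(x : ℝ)| ≤ X ∧
          ∀ k : ℕ, y < |(((Pool.Agent.H319R3.GC.Tm d m r)^[k] x : ℤ) : ℝ)|} := by
        rintro x ⟨h5, h6⟩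
        exact ⟨h5, hP x h6⟩
      unfold count
      exact_mod_cast Set.ncard_le_ncard hsub hfin
    refine ⟨key _ (fun x hx => hx), fun F hF => key _ ?_, key _ ?_⟩
    · intro x hx k
      by_contra hcon
      push Not at hcon
      obtain ⟨j, hj⟩ := hF _ hcon
      rw [← Function.iterate_add_apply] at hj
      exact hx _ hj
    · rintro x ⟨p, ⟨n, hn, hper⟩, ⟨k, hk⟩, hz⟩ j
      apply hz
      -- from `T^j x` one reaches `p`
      have hperm : ∀ t : ℕ, (T d m r)^[n * t] p = p := by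
        intro t
        induction t with
        | zero => rfl
        | succ t ih => rw [mul_add, mul_one, Function.iterate_add_apply, hper, ih]
      refine ⟨k + n * j - j, ?_⟩
      rw [← Function.iterate_add_apply]
      have hle : j ≤ k + n * j := by nlinarith
      have e : k + n * j - j + j = n * j + k := by omega
      rw [e, Function.iterate_add_apply, hk, hperm]

end Pool.Agent.Results.MP_f2ed2a_nt.UniformPowerSaving
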